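import Pool.Agent.FGT.Stmts

/-! FGT row TBD: the orbit of `z` is totally bounded for `D - kk`. -/

set_option autoImplicit false

namespace Pool.Agent.FGT.H86

open Pool.Agent.FGT

universe u

/-- a maximal family -/
theorem exists_maxi {ι : Type*} (p : ι → Prop) (R : ι → ι → Prop) (hR : ∀ x y, R x y → R y x)
    (N : ℕ) (hN : ∀ s : Finset ι, (∀ x ∈ s, p x) → (∀ x ∈ s, ∀ y ∈ s, x ≠ y → R x y) →
      s.card ≤ N) :
    ∃ s : Finset ι, (∀ x ∈ s, p x) ∧ ∀ x, p x → ∃ y ∈ s, x = y ∨ ¬ R x y := by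
  classical
  set A : Set ℕ := {n | ∃ s : Finset ι, ((∀ x ∈ s, p x) ∧ ∀ x ∈ s, ∀ y ∈ s, x ≠ y → R x y) ∧
    s.card = n} with hA
  have hne : A.Nonempty := ⟨0, ∅, ⟨fun x hx => absurd hx (Finset.notMem_empty x),
    fun x hx => absurd hx (Finset.notMem_empty x)⟩, rfl⟩
  have hbd : BddAbove A := ⟨N, by
    rintro n ⟨s, ⟨h1, h2⟩, rfl⟩
    exact hN s h1 h2⟩
  obtain ⟨s, ⟨h1, h2⟩, h3⟩ := Nat.sSup_mem hne hbd
  refine ⟨s, h1, fun x hx => ?_⟩
  by_contra hcon
  push Not at hcon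
  have hxs : x ∉ s := fun h => (hcon x h).1 rfl
  have h4 : (insert x s).card ∈ A := by
    refine ⟨insert x s, ⟨?_, ?_⟩, rfl⟩
    · intro y hy
      rcases Finset.mem_insert.1 hy with rfl | hy
      · exact hx
      · exact h1 y hy
    · intro y hy y' hy' hne'
      rcases Finset.mem_insert.1 hy with hyx | hys
      · rcases Finset.mem_insert.1 hy' with hyx' | hys'
        · exact absurd (hyx.trans hyx'.symm) hne'
        · rw [hyx]
          exact (hcon y' hys').2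
      · rcases Finset.mem_insert.1 hy' with hyx' | hys'
        · rw [hyx']
          exact hR _ _ (hcon y hys).2
        · exact h2 y hys y' hys' hne'
  have h5 := le_csSup hbd h4
  rw [Finset.card_insert_of_notMem hxs] at h5
  omega

section Basic

variable {L : Type u} [Group L] (α : L →* Equiv.Perm ℤ)

theorem lk_refl (y z : ℤ) : Lk α y z z := ⟨1, by simp, by simp⟩

theorem lk_symm {y z z' : ℤ} (h : Lk α y z z') : Lk α y z' z := by
  obtain ⟨g, h1, h2⟩ := h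
  refine ⟨g⁻¹, ?_, ?_⟩
  · rw [map_inv, Equiv.Perm.inv_eq_iff_eq]
    exact h1.symm
  · rw [map_inv, Equiv.Perm.inv_eq_iff_eq]
    exact h2.symm

theorem lk_trans {y z z' z'' : ℤ} (h : Lk α y z z') (h' : Lk α y z' z'') : Lk α y z z'' := by
  obtain ⟨g, h1, h2⟩ := h
  obtain ⟨g', h3, h4⟩ := h'
  refine ⟨g' * g, ?_, ?_⟩
  · rw [map_mul, Equiv.Perm.mul_apply, h1, h3]
  · rw [map_mul, Equiv.Perm.mul_apply, h2, h4]

/-- meeting orbits -/
theorem mem_orb_of_meet {K : Subgroup L} {y y' : ℤ} (h : ¬ Disjoint (orb α K y) (orb α K y')) :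
    ∃ k ∈ K, α k y' = y := by
  rw [Set.not_disjoint_iff] at h
  obtain ⟨w, ⟨g, hg, h1⟩, ⟨g', hg', h2⟩⟩ := h
  refine ⟨g⁻¹ * g', K.mul_mem (K.inv_mem hg) hg', ?_⟩
  rw [map_mul, Equiv.Perm.mul_apply, h2, map_inv, Equiv.Perm.inv_eq_iff_eq]
  exact h1.symm

/-- conjugation of a link by an element fixing both points -/
theorem lk_conj {K : Subgroup L} {k : L} (hk : k ∈ K) {y x x' : ℤ} (hx : x ∈ Fx α K)
    (hx' : x' ∈ Fx α K) (h : Lk α y x x') : Lk α (α k y) x x' := by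
  obtain ⟨g, h1, h2⟩ := h
  refine ⟨k * g * k⁻¹, ?_, ?_⟩
  · rw [map_mul, map_mul, Equiv.Perm.mul_apply, Equiv.Perm.mul_apply]
    have : α k⁻¹ (α k y) = y := by
      rw [← Equiv.Perm.mul_apply, ← map_mul, inv_mul_cancel, map_one, Equiv.Perm.one_apply]
    rw [this, h1]
  · rw [map_mul, map_mul, Equiv.Perm.mul_apply, Equiv.Perm.mul_apply, hx _ (K.inv_mem hk), h2,
      hx' _ hk]

end Basic

/-- a set of positive mass covered by finitely many sets meets one of them in positive mass -/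
theorem pos_piece {I : (ℤ → ℝ) → ℝ} (hI : IsMean I) {κ : Type*} (s : Finset κ) (B : κ → Set ℤ)
    (P : Set ℤ) (hP : 0 < ms I P) (h : ∀ x ∈ P, ∃ i ∈ s, x ∈ B i) :
    ∃ i ∈ s, 0 < ms I (P ∩ B i) := by
  by_contra hcon
  push Not at hcon
  have h1 : P ⊆ ⋃ i ∈ s, P ∩ B i := by
    intro x hx
    obtain ⟨i, hi, h2⟩ := h x hx
    exact Set.mem_biUnion hi ⟨hx, h2⟩
  have h2 := (hI.ms_mono h1).trans (hI.ms_biUnion_le s fun i => P ∩ B i)
  have h3 : ∑ i ∈ s, ms I (P ∩ B i) ≤ 0 := Finset.sum_nonpos hcon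
  linarith

/-- (T1): a ball of positive mass -/
theorem ball_pos (hD : DnsStmt.{u}) (hK : KraStmt.{u}) (hC : ClsStmt.{u}) (L : Type u) [Group L]
    (hL : Group.FG L) (α : L →* Equiv.Perm ℤ) (hα : BDp α) (I : (ℤ → ℝ) → ℝ) (hI : IsMean I)
    (z : ℤ) (hz : z ∈ II α (⊤ : Subgroup L)) (hcov : COV α I z) (δ : ℝ) (hδ : 0 < δ) :
    ∃ x₀ : ℤ, (∃ g : L, α g z = x₀) ∧
      0 < ms I {x | (∃ g : L, α g z = x) ∧ DD α I z - kk α I x₀ x ≤ δ} := by
  classical
  set Lam : Set ℤ := {j | ∃ g : L, α g z = j} with hLam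
  have hL0 : 0 < ms I Lam := by
    obtain ⟨c, hc, h⟩ := hD L α hα I hI ⊤ ((Group.fg_def).1 hL)
    have h1 := h z hz
    have h2 : orb α ⊤ z = Lam := by
      ext i
      simp [orb, hLam]
    rw [h2] at h1
    exact lt_of_lt_of_le hc h1
  obtain ⟨F, hF1, hF2⟩ := hcov δ hδ (ms I Lam / 2) (by positivity)
  -- a good subgroup
  obtain ⟨K, hKF, hKpos⟩ : ∃ K ∈ F, 0 < ms I (Lam ∩ Fx α K) := by
    by_contra hcon
    push Not at hcon
    have h1 : Lam ⊆ {j | (∃ g : L, α g z = j) ∧ ∀ K ∈ F, j ∉ Fx α K} ∪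
        ⋃ K ∈ F, Lam ∩ Fx α K := by
      intro j hj
      by_cases h : ∀ K ∈ F, j ∉ Fx α K
      · exact Or.inl ⟨hj, h⟩
      · push Not at h
        obtain ⟨K, hK1, hK2⟩ := h
        exact Or.inr (Set.mem_biUnion hK1 ⟨hj, hK2⟩)
    have h2 := (hI.ms_mono h1).trans (hI.ms_union_le _ _)
    have h3 := hI.ms_biUnion_le F fun K => Lam ∩ Fx α K
    have h4 : ∑ K ∈ F, ms I (Lam ∩ Fx α K) ≤ 0 := Finset.sum_nonpos hcon
    linarith
  obtain ⟨hKfg, hKm⟩ := hF1 K hKF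
  obtain ⟨c, hc, hcK⟩ := hD L α hα I hI K hKfg
  obtain ⟨N, hN⟩ := exists_nat_ge (1 / c)
  have hbound : ∀ n : ℕ, (n : ℝ) * c ≤ 1 → n ≤ N := by
    intro n hn
    have h1 : (n : ℝ) ≤ 1 / c := by
      rw [le_div_iff₀ hc]
      exact hn
    exact_mod_cast h1.trans hN
  -- representatives of the infinite orbits
  obtain ⟨Y, hY1, hY2⟩ := exists_maxi (fun y => y ∈ II α K)
    (fun y y' => Disjoint (orb α K y) (orb α K y')) (fun _ _ h => h.symm) N (by
      intro s h1 h2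
      exact hbound _ (hI.card_le s (fun y => orb α K y) h2 c fun y hy => hcK y (h1 y hy)))
  -- representatives of the classes
  have hcls : ∀ y ∈ Y, ∃ S : Finset ℤ, ∀ x, x ∈ Lam ∩ Fx α K → ∃ s ∈ S, Lk α y x s := by
    intro y hy
    obtain ⟨S, -, hS2⟩ := exists_maxi (fun x => x ∈ Lam ∩ Fx α K)
      (fun x x' => ¬ Lk α y x x') (fun _ _ h h' => h (lk_symm α h')) N (by
        intro s h1 h2
        exact hbound _ (hC L α hα I hI K c z y s (hcK y (hY1 y hy))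
          (fun x hx => ⟨(h1 x hx).2, (h1 x hx).1⟩) h2))
    refine ⟨S, fun x hx => ?_⟩
    obtain ⟨s, hs, h⟩ := hS2 x hx
    refine ⟨s, hs, ?_⟩
    rcases h with rfl | h
    · exact lk_refl α y x
    · exact not_not.1 h
  -- one class of positive mass
  have hind : ∀ Y' : Finset ℤ, Y' ⊆ Y → ∃ P : Set ℤ, P ⊆ Lam ∩ Fx α K ∧ 0 < ms I P ∧
      ∀ y ∈ Y', ∀ x ∈ P, ∀ x' ∈ P, Lk α y x x' := by
    intro Y'
    induction Y' using Finset.induction_on with
    | empty =>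
      intro _
      exact ⟨Lam ∩ Fx α K, subset_rfl, hKpos, fun y hy => absurd hy (Finset.notMem_empty y)⟩
    | insert a s ha ih =>
      intro hs
      obtain ⟨P, hP1, hP2, hP3⟩ := ih fun y hy => hs (Finset.mem_insert_of_mem hy)
      obtain ⟨S, hS⟩ := hcls a (hs (Finset.mem_insert_self a s))
      obtain ⟨t, ht, h1⟩ := pos_piece hI S (fun t => {x | Lk α a x t}) P hP2
        fun x hx => hS x (hP1 hx)
      refine ⟨P ∩ {x | Lk α a x t}, fun x hx => hP1 hx.1, h1, ?_⟩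
      intro y hy x hx x' hx'
      rcases Finset.mem_insert.1 hy with rfl | hy
      · exact lk_trans α hx.2 (lk_symm α hx'.2)
      · exact hP3 y hy x hx.1 x' hx'.1
  obtain ⟨P, hP1, hP2, hP3⟩ := hind Y subset_rfl
  have hPne : P.Nonempty := by
    rw [Set.nonempty_iff_ne_empty]
    rintro rfl
    rw [hI.ms_empty] at hP2
    exact lt_irrefl _ hP2
  obtain ⟨x₀, hx₀⟩ := hPne
  refine ⟨x₀, (hP1 hx₀).1, lt_of_lt_of_le hP2 (hI.ms_mono ?_)⟩
  intro x hx
  refine ⟨(hP1 hx).1, ?_⟩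
  have h1 : II α K ⊆ {y | y ∈ II α K ∧ y ∈ II α K ∧ Lk α y x₀ x} := by
    intro y hy
    refine ⟨hy, hy, ?_⟩
    obtain ⟨y', hy', h⟩ := hY2 y hy
    have h2 := hP3 y' hy' x₀ hx₀ x hx
    rcases h with rfl | h
    · exact h2
    · obtain ⟨k, hk, h3⟩ := mem_orb_of_meet α h
      rw [← h3]
      exact lk_conj α hk (hP1 hx₀).2 (hP1 hx).2 h2
  have h2 := (hI.ms_mono h1).trans ((hK L α hα I hI).2.2.2.2.2.2 x₀ x K K hKfg hKfg
    (hP1 hx₀).2 (hP1 hx).2)
  linarith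

/-- three points -/
theorem three (hP : PsdStmt.{u}) (hK : KraStmt.{u}) (L : Type u) [Group L]
    (α : L →* Equiv.Perm ℤ) (hα : BDp α) (I : (ℤ → ℝ) → ℝ) (hI : IsMean I) (x w f : ℤ) :
    4 * kk α I x w + 4 * kk α I f w ≤
      DD α I x + 4 * DD α I w + DD α I f + 2 * kk α I x f := by
  classical
  obtain ⟨-, -, hsym, hdiag, -⟩ := hK L α hα I hI
  set s : Finset ℤ := {x, w, f} with hs
  have hx : x ∈ s := by simp [hs]
  have hw : w ∈ s := by simp [hs]
  have hf : f ∈ s := by simp [hs]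
  set c : ℤ → ℝ := fun i => (if i = x then 1 else 0) - 2 * (if i = w then 1 else 0) +
    (if i = f then 1 else 0) with hc
  have key : ∀ g : ℤ → ℝ, ∑ i ∈ s, c i * g i = g x - 2 * g w + g f := by
    intro g
    have h1 : ∀ i, c i * g i = (if i = x then g i else 0) - 2 * (if i = w then g i else 0) +
        (if i = f then g i else 0) := by
      intro i
      simp only [hc]
      split_ifs <;> ring
    simp only [h1]
    rw [Finset.sum_add_distrib, Finset.sum_sub_distrib, ← Finset.mul_sum,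
      Finset.sum_ite_eq' s x, Finset.sum_ite_eq' s w, Finset.sum_ite_eq' s f, if_pos hx,
      if_pos hw, if_pos hf]
  have h1 := hP L α hα I hI s c
  have h2 : ∑ i ∈ s, ∑ j ∈ s, c i * c j * kk α I i j =
      ∑ i ∈ s, c i * (∑ j ∈ s, c j * kk α I i j) := by
    refine Finset.sum_congr rfl fun i _ => ?_
    rw [Finset.mul_sum]
    exact Finset.sum_congr rfl fun j _ => by ring
  rw [h2, key] at h1
  simp only [key] at h1
  rw [hdiag x, hdiag w, hdiag f, hsym w x, hsym w f, hsym f x] at h1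
  linarith

/-- **TBD** -/
theorem tbd (hD : DnsStmt.{u}) (hK : KraStmt.{u}) (hP : PsdStmt.{u}) (hC : ClsStmt.{u}) :
    TbdStmt.{u} := by
  classical
  intro L _ hL α hα I hI z hz hcov ε hε
  obtain ⟨x₀, ⟨g₀, hg₀⟩, hpos⟩ := ball_pos hD hK hC L hL α hα I hI z hz hcov (ε / 8)
    (by positivity)
  obtain ⟨hDinv, hkinv, hsym, hdiag, -⟩ := hK L α hα I hI
  set Bl : ℤ → Set ℤ := fun x' => {x | (∃ g : L, α g z = x) ∧ DD α I z - kk α I x' x ≤ ε / 8}
    with hBl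
  have hDz : ∀ g : L, DD α I (α g z) = DD α I z := fun g => hDinv g z
  -- all balls have the same mass
  have hball : ∀ x, (∃ g : L, α g z = x) → ms I (Bl x) = ms I (Bl x₀) := by
    rintro x ⟨g, rfl⟩
    have h1 : α (g * g₀⁻¹) x₀ = α g z := by
      rw [← hg₀, ← Equiv.Perm.mul_apply, ← map_mul, inv_mul_cancel_right]
    have h2 : Bl (α g z) = α (g * g₀⁻¹) '' Bl x₀ := by
      rw [← h1]
      ext x
      constructor
      · rintro ⟨⟨g', hg'⟩, h3⟩
        refine ⟨α (g * g₀⁻¹)⁻¹ x, ⟨⟨(g * g₀⁻¹)⁻¹ * g', ?_⟩, ?_⟩, ?_⟩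
        · rw [map_mul, Equiv.Perm.mul_apply, hg']
        · rw [← hkinv (g * g₀⁻¹)]
          have h4 : α (g * g₀⁻¹) (α (g * g₀⁻¹)⁻¹ x) = x := by
            rw [← Equiv.Perm.mul_apply, ← map_mul, mul_inv_cancel, map_one,
              Equiv.Perm.one_apply]
          rw [h4]
          exact h3
        · rw [← Equiv.Perm.mul_apply, ← map_mul, mul_inv_cancel, map_one,
            Equiv.Perm.one_apply]
      · rintro ⟨y, ⟨⟨g', hg'⟩, h3⟩, rfl⟩
        refine ⟨⟨(g * g₀⁻¹) * g', ?_⟩, ?_⟩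
        · rw [map_mul, Equiv.Perm.mul_apply, hg']
        · rw [hkinv (g * g₀⁻¹)]
          exact h3
    obtain ⟨R, hR⟩ := hα (g * g₀⁻¹)
    rw [h2]
    exact hI.ms_perm _ R hR _
  obtain ⟨N, hN⟩ := exists_nat_ge (1 / ms I (Bl x₀))
  obtain ⟨F, hF1, hF2⟩ := exists_maxi (fun x => ∃ g : L, α g z = x)
    (fun x x' => Disjoint (Bl x) (Bl x')) (fun _ _ h => h.symm) N (by
      intro s h1 h2
      have h3 := hI.card_le s Bl h2 (ms I (Bl x₀)) fun x hx => (hball x (h1 x hx)).ge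
      have h4 : (s.card : ℝ) ≤ 1 / ms I (Bl x₀) := by
        rw [le_div_iff₀ hpos]
        exact h3
      exact_mod_cast h4.trans hN)
  refine ⟨F, hF1, fun g => ?_⟩
  obtain ⟨f, hf, h⟩ := hF2 (α g z) ⟨g, rfl⟩
  refine ⟨f, hf, ?_⟩
  rcases h with h | h
  · rw [← h, hdiag, hDz]
    linarith
  · rw [Set.not_disjoint_iff] at h
    obtain ⟨w, ⟨⟨gw, hgw⟩, h1⟩, ⟨-, h2⟩⟩ := h
    obtain ⟨gf, hgf⟩ := hF1 f hf
    have h3 := three hP hK L α hα I hI (α g z) w f
    have h4 : DD α I w = DD α I z := by rw [← hgw, hDz]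
    have h5 : DD α I f = DD α I z := by rw [← hgf, hDz]
    rw [hDz, h4, h5] at h3
    linarith

end Pool.Agent.FGT.H86
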